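import Mathlib
import Pool.Agent.N384.MQ.Flat
import Pool.Agent.N384.MQ.Four
import Pool.Agent.Run7.h794.MK.OneG

/-! Flat families of residues as short flat distributions (copies of lemmas of Pool.Agent.N384.MQ.Main, Pool.Agent.Run7.h794.MK.Tra
and Pool.Agent.Run7.h794.MK.Orth, with a smaller list of imports). -/

set_option autoImplicit false

namespace Pool.Agent.Run7.h458.MK

open Finset Filter
open Pool.Agent.H807R2.Dav (ee norm_ee ee_add)
open Pool.Agent.N384.MQ (Flat Sm)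
open Pool.Agent.Run7.h794.MK (Msh)

section
variable {ι : Type}

open Classical in
/-- the distribution of the values of a family -/
noncomputable def dis {q : ℕ} (s : Finset ι) (y : ι → ZMod q) (v : ℕ) : ℝ :=
  ((s.filter (fun i => (y i).val = v)).card : ℝ) / s.card

lemma dis_nonneg {q : ℕ} (s : Finset ι) (y : ι → ZMod q) (v : ℕ) : 0 ≤ dis s y v := by
  unfold dis
  positivity

lemma dis_sum {q : ℕ} [NeZero q] (s : Finset ι) (y : ι → ZMod q) (M : ℕ) (hM : q ≤ M) (g : ℕ → ℂ) :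
    ∑ v ∈ range M, (dis s y v : ℂ) * g v = (1 / (s.card : ℂ)) * ∑ i ∈ s, g (y i).val := by
  classical
  have hmaps : ∀ i ∈ s, (y i).val ∈ range M := fun i _ => mem_range.2 (lt_of_lt_of_le (ZMod.val_lt _) hM)
  rw [← sum_fiberwise_of_maps_to (g := fun i => (y i).val) hmaps, mul_sum]
  refine sum_congr rfl fun v _ => ?_
  have h1 : ∑ i ∈ s.filter (fun i => (y i).val = v), g (y i).val = ((s.filter (fun i => (y i).val = v)).card : ℂ) * g v := by
    rw [← nsmul_eq_mul, ← sum_const]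
    refine sum_congr rfl fun i hi => ?_
    rw [(mem_filter.1 hi).2]
  rw [h1]
  unfold dis
  push_cast
  ring

lemma dis_sum_real {q : ℕ} [NeZero q] (s : Finset ι) (y : ι → ZMod q) (M : ℕ) (hM : q ≤ M) (g : ℕ → ℝ) :
    ∑ v ∈ range M, dis s y v * g v = (∑ i ∈ s, g (y i).val) / s.card := by
  have h := dis_sum s y M hM (fun v => (g v : ℂ))
  have h2 : ((∑ v ∈ range M, dis s y v * g v : ℝ) : ℂ) = (((∑ i ∈ s, g (y i).val) / s.card : ℝ) : ℂ) := by
    push_cast
    rw [h]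
    ring
  exact_mod_cast h2

lemma std_ee' (q : ℕ) [NeZero q] (n : ℤ) :
    (ZMod.stdAddChar ((n : ℤ) : ZMod q) : ℂ) = ee ((n : ℝ) / q) := by
  rw [ZMod.stdAddChar_coe]
  unfold ee
  congr 1
  push_cast
  ring

end

/-- the distribution of a flat family -/
lemma sm_dis' {ι : Type} {q : ℕ} [NeZero q] {η : ℝ} {s : Finset ι} (hs : s.Nonempty) {y : ι → ZMod q} (hf : Flat q η s y) :
    Sm q η (fun v => (dis s y v : ℂ)) := by
  have hq1 : 1 ≤ q := Nat.pos_of_ne_zero (NeZero.ne q)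
  have hs0 : (0 : ℝ) < s.card := by exact_mod_cast hs.card_pos
  have hs0' : (s.card : ℂ) ≠ 0 := by exact_mod_cast hs0.ne'
  refine ⟨hq1, ?_, fun h hh => ?_⟩
  · have h1 := dis_sum_real s y q le_rfl (fun _ => 1)
    simp only [mul_one, sum_const, nsmul_eq_mul] at h1
    rw [← Complex.ofReal_sum, h1, div_self hs0.ne']
    simp
  · rw [dis_sum s y q le_rfl (fun v => ee ((h : ℝ) * v / q))]
    have h1 : ∑ i ∈ s, ee ((h : ℝ) * (((y i).val : ℕ) : ℝ) / q) = ∑ i ∈ s, (ZMod.stdAddChar ((h : ZMod q) * y i) : ℂ) := by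
      refine sum_congr rfl fun i _ => ?_
      have e1 : (h : ZMod q) * y i = ((h * ((y i).val : ℤ) : ℤ) : ZMod q) := by
        push_cast
        rw [ZMod.natCast_zmod_val]
      rw [e1, std_ee']
      congr 1
      push_cast
      ring
    have h2 := hf (h : ZMod q) (by
      intro h0
      exact hh ((ZMod.intCast_zmod_eq_zero_iff_dvd h q).1 h0))
    rw [h1, norm_mul, norm_div, norm_one, Complex.norm_natCast]
    calc 1 / (s.card : ℝ) * ‖∑ i ∈ s, (ZMod.stdAddChar ((h : ZMod q) * y i) : ℂ)‖ ≤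
        1 / (s.card : ℝ) * (η * s.card) := mul_le_mul_of_nonneg_left h2 (by positivity)
      _ = η := by field_simp

lemma dis_one {ι : Type} {q : ℕ} [NeZero q] {s : Finset ι} (hs : s.Nonempty) (y : ι → ZMod q) :
    ∑ v ∈ range q, dis s y v = 1 := by
  have hs0 : (0 : ℝ) < s.card := by exact_mod_cast hs.card_pos
  have h1 := dis_sum_real s y q le_rfl (fun _ => 1)
  simp only [mul_one, sum_const, nsmul_eq_mul] at h1
  rw [h1, div_self hs0.ne']

/-- flat families give short flat distributions -/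
lemma msh_dis {ι : Type} {V C Bq N q : ℕ} [NeZero q] {s : Finset ι} (hs : s.Nonempty) {y : ι → ZMod q}
    (h1 : (N : ℝ) ^ (1 / 3 : ℝ) * Real.log N ^ C ≤ q) (h2 : q ≤ Bq * N) (hf : Flat q (1 / Real.log N ^ V) s y) :
    Msh V C Bq N q (dis s y) :=
  ⟨h1, h2, dis_nonneg s y, dis_one hs y, sm_dis' hs hf⟩

lemma prefix_grid (f : ℕ → ℝ) (hf : ∀ n, |f n| ≤ 1) (N h : ℕ) (hh : 1 ≤ h) (w : ℕ) (hw : w ≤ N) :
    |∑ n ∈ Icc 1 w, f n| ≤ ∑ j ∈ range (N / h + 1), |∑ n ∈ Icc 1 (j * h), f n| + h := by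
  obtain ⟨j, hj⟩ : ∃ j, j = w / h := ⟨_, rfl⟩
  have h1 : j * h ≤ w := by rw [hj]; exact Nat.div_mul_le_self w h
  have h2 : w < j * h + h := by
    rw [hj]
    have := Nat.lt_div_mul_add (a := w) (b := h) (by omega)
    exact this
  have h3 : ∑ n ∈ Icc 1 w, f n = ∑ n ∈ Icc 1 (j * h), f n + ∑ n ∈ Ioc (j * h) w, f n := by
    have e1 : Icc 1 w = Ioc 0 w := by ext x; simp only [mem_Icc, mem_Ioc]; omega
    have e2 : Icc 1 (j * h) = Ioc 0 (j * h) := by ext x; simp only [mem_Icc, mem_Ioc]; omega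
    rw [e1, e2, sum_Ioc_consecutive _ (Nat.zero_le _) h1]
  have h4 : |∑ n ∈ Ioc (j * h) w, f n| ≤ h := by
    refine (abs_sum_le_sum_abs _ _).trans ?_
    refine (sum_le_sum fun n _ => hf n).trans ?_
    rw [sum_const, Nat.card_Ioc, nsmul_eq_mul, mul_one]
    have : w - j * h ≤ h := by omega
    exact_mod_cast this
  have h5 : |∑ n ∈ Icc 1 (j * h), f n| ≤ ∑ j ∈ range (N / h + 1), |∑ n ∈ Icc 1 (j * h), f n| := by
    have h6 : j ∈ range (N / h + 1) := by
      rw [mem_range, hj]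
      have := Nat.div_le_div_right (c := h) hw
      omega
    exact single_le_sum (f := fun j => |∑ n ∈ Icc 1 (j * h), f n|) (fun j _ => abs_nonneg _) h6
  rw [h3]
  refine (abs_add_le _ _).trans ?_
  linarith


end Pool.Agent.Run7.h458.MK
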