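import Mathlib
import Pool.Agent.Run7.h794.MK.Stm4

/-!
# Piece MKM_LIO of project MKM (helper794): from the Moebius function to the Liouville function

`λ(n) = ∑_{d² | n} μ(n / d²)`; the `d ≤ L^(U+1)` by `S_ALLg mob` at `x / d²`, `Y / d²`, the rest trivially.
-/

set_option autoImplicit false

namespace Pool.Agent.Run7.h458.MK

open Finset
open Pool.Agent.H807R2.Dav (ee)
open Pool.Agent.Run7.h794.MK

/-! ## The decomposition -/

theorem ee_norm (x : ℝ) : ‖ee x‖ = 1 := by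
  have : ee x = Complex.exp (((2 * Real.pi * x : ℝ) : ℂ) * Complex.I) := by
    unfold Pool.Agent.H807R2.Dav.ee; congr 1; push_cast; ring
  rw [this, Complex.norm_exp_ofReal_mul_I]

theorem abs_mob_le (n : ℕ) : |mob n| ≤ 1 := by
  unfold mob
  have h := ArithmeticFunction.abs_moebius_le_one (n := n)
  exact_mod_cast h

theorem abs_lio_le (n : ℕ) : |lio n| ≤ 1 := by
  unfold lio
  split_ifs with h
  · simp
  · simp [abs_pow]

/-- the square part is unique -/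
theorem sq_part_unique {n a b c d : ℕ} (hn : 0 < n) (h1 : b ^ 2 * a = n) (ha : Squarefree a)
    (h2 : d ^ 2 * c = n) (hc : Squarefree c) : b = d := by
  have hb0 : b ≠ 0 := by rintro rfl; simp at h1; omega
  have hd0 : d ≠ 0 := by rintro rfl; simp at h2; omega
  have ha0 : a ≠ 0 := ha.ne_zero
  have hc0 : c ≠ 0 := hc.ne_zero
  apply Nat.eq_of_factorization_eq hb0 hd0
  intro p
  have e1 : n.factorization p = 2 * b.factorization p + a.factorization p := by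
    rw [← h1, Nat.factorization_mul (pow_ne_zero 2 hb0) ha0, Nat.factorization_pow]
    simp
  have e2 : n.factorization p = 2 * d.factorization p + c.factorization p := by
    rw [← h2, Nat.factorization_mul (pow_ne_zero 2 hd0) hc0, Nat.factorization_pow]
    simp
  have f1 := Squarefree.natFactorization_le_one p ha
  have f2 := Squarefree.natFactorization_le_one p hc
  omega

/-- `μ(n / d²)` on the multiples of `d²` -/
noncomputable def md (d n : ℕ) : ℝ := if d ^ 2 ∣ n then mob (n / d ^ 2) else 0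

/-- the indicator of a large square divisor -/
noncomputable def rd (D n : ℕ) : ℝ := by
  classical
  exact if ∃ d, D < d ∧ d ^ 2 ∣ n then 1 else 0

theorem rd_nonneg (D n : ℕ) : 0 ≤ rd D n := by
  unfold rd; split_ifs <;> norm_num

theorem rd_le_one (D n : ℕ) : rd D n ≤ 1 := by
  unfold rd; split_ifs <;> norm_num

theorem lio_decomp (D n : ℕ) (hn : 1 ≤ n) : |lio n - ∑ d ∈ Icc 1 D, md d n| ≤ rd D n := by
  obtain ⟨a, b, ha, hb, hab, hsq⟩ := Nat.sq_mul_squarefree_of_pos hn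
  have hlio : lio n = mob a := by
    unfold lio mob
    rw [if_neg (by omega), ArithmeticFunction.moebius_apply_of_squarefree hsq,
      ← ArithmeticFunction.cardFactors_apply, ← hab,
      ArithmeticFunction.cardFactors_mul (pow_ne_zero 2 hb.ne') ha.ne', ArithmeticFunction.cardFactors_pow]
    push_cast
    rw [pow_add, pow_mul]
    simp
  have hz : ∀ d ∈ Icc 1 D, d ≠ b → md d n = 0 := by
    intro d hd hdb
    unfold md
    split_ifs with hdn
    · have hd1 : 1 ≤ d := (mem_Icc.1 hd).1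
      have : ¬ Squarefree (n / d ^ 2) := by
        intro hs
        apply hdb
        exact (sq_part_unique hn hab hsq (Nat.mul_div_cancel' hdn) hs).symm
      unfold mob
      rw [ArithmeticFunction.moebius_eq_zero_of_not_squarefree this]
      simp
    · rfl
  by_cases hbD : b ≤ D
  · have hmem : b ∈ Icc 1 D := mem_Icc.2 ⟨hb, hbD⟩
    have : ∑ d ∈ Icc 1 D, md d n = mob a := by
      rw [Finset.sum_eq_single b hz (fun h => absurd hmem h)]
      unfold md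
      rw [if_pos ⟨a, hab.symm⟩]
      congr 1
      rw [← hab]
      exact Nat.mul_div_cancel_left _ (by positivity)
    rw [this, hlio, sub_self, abs_zero]
    exact rd_nonneg D n
  · have : ∑ d ∈ Icc 1 D, md d n = 0 := by
      apply Finset.sum_eq_zero
      intro d hd
      apply hz d hd
      rintro rfl
      exact hbD (mem_Icc.1 hd).2
    rw [this, sub_zero]
    have hr : rd D n = 1 := by
      unfold rd
      rw [if_pos ⟨b, by omega, ⟨a, hab.symm⟩⟩]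
    rw [hr]
    exact abs_lio_le n

/-! ## Sums over multiples -/

theorem sum_multiples (q m M : ℕ) (hq : 1 ≤ q) (F : ℕ → ℕ → ℂ) :
    ∑ n ∈ Ioc m M, (if q ∣ n then F (n / q) n else 0) = ∑ k ∈ Ioc (m / q) (M / q), F k (k * q) := by
  rw [← Finset.sum_filter]
  refine Finset.sum_nbij' (fun n => n / q) (fun k => k * q) ?_ ?_ ?_ ?_ ?_
  · intro n hn
    obtain ⟨h1, t, rfl⟩ := Finset.mem_filter.1 hn
    rw [mem_Ioc] at h1
    simp only [mem_Ioc]
    rw [Nat.mul_div_cancel_left _ (by omega)]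
    constructor
    · rw [Nat.div_lt_iff_lt_mul (by omega)]; linarith [mul_comm q t, h1.1]
    · rw [Nat.le_div_iff_mul_le (by omega)]; linarith [mul_comm q t, h1.2]
  · intro k hk
    rw [mem_Ioc] at hk
    rw [Finset.mem_filter, mem_Ioc]
    refine ⟨⟨?_, ?_⟩, Dvd.intro_left k rfl⟩
    · exact (Nat.div_lt_iff_lt_mul (by omega)).1 hk.1
    · exact (Nat.le_div_iff_mul_le (by omega)).1 hk.2
  · intro n hn
    obtain ⟨h1, t, rfl⟩ := Finset.mem_filter.1 hn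
    show q * t / q * q = q * t
    rw [Nat.mul_div_cancel_left _ (by omega)]; ring
  · intro k hk
    exact Nat.mul_div_cancel _ (by omega)
  · intro n hn
    obtain ⟨h1, t, rfl⟩ := Finset.mem_filter.1 hn
    show F (q * t / q) (q * t) = F (q * t / q) (q * t / q * q)
    rw [Nat.mul_div_cancel_left _ (by omega), mul_comm t q]

theorem W_md (d : ℕ) (hd : 1 ≤ d) (α : ℝ) (m Y : ℕ) :
    W (md d) α m Y = ∑ k ∈ Ioc (m / d ^ 2) ((m + Y) / d ^ 2), (mob k : ℂ) * ee (k * (((d ^ 2 : ℕ) : ℝ) * α)) := by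
  have h := sum_multiples (d ^ 2) m (m + Y) (Nat.one_le_pow _ _ (by omega))
    (fun k n => (mob k : ℂ) * ee ((n : ℝ) * α))
  unfold W
  calc ∑ n ∈ Ioc m (m + Y), ((md d n : ℝ) : ℂ) * ee (n * α)
      = ∑ n ∈ Ioc m (m + Y), (if d ^ 2 ∣ n then (mob (n / d ^ 2) : ℂ) * ee ((n : ℝ) * α) else 0) := by
        apply Finset.sum_congr rfl
        intro n _
        unfold md
        split_ifs <;> simp
    _ = ∑ k ∈ Ioc (m / d ^ 2) ((m + Y) / d ^ 2), (mob k : ℂ) * ee (((k * d ^ 2 : ℕ) : ℝ) * α) := h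
    _ = _ := by
        apply Finset.sum_congr rfl
        intro k _
        congr 2
        push_cast
        ring

theorem term_norm (k : ℕ) (β : ℝ) : ‖(mob k : ℂ) * ee (k * β)‖ ≤ 1 := by
  rw [norm_mul, ee_norm, mul_one, Complex.norm_real, Real.norm_eq_abs]
  exact abs_mob_le k

theorem W_md_near (d : ℕ) (hd : 1 ≤ d) (α : ℝ) (m Y : ℕ) :
    ‖W (md d) α m Y - W mob (((d ^ 2 : ℕ) : ℝ) * α) (m / d ^ 2) (Y / d ^ 2)‖ ≤ 1 := by
  rw [W_md d hd]
  unfold W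
  set q := d ^ 2 with hq
  have hq1 : 1 ≤ q := Nat.one_le_pow _ _ (by omega)
  have h1 : m / q + Y / q ≤ (m + Y) / q := Nat.div_add_div_le_add_div ..
  have h2 : (m + Y) / q ≤ m / q + Y / q + 1 := by
    rw [Nat.add_div (by omega)]
    split_ifs <;> omega
  rcases Nat.lt_or_ge ((m + Y) / q) (m / q + Y / q + 1) with h3 | h3
  · have : (m + Y) / q = m / q + Y / q := by omega
    rw [this, sub_self, norm_zero]
    norm_num
  · have : (m + Y) / q = m / q + Y / q + 1 := by omega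
    rw [this, Finset.sum_Ioc_succ_top (Nat.le_add_right _ _), add_sub_cancel_left]
    exact term_norm _ _

theorem W_mob_trivial (β : ℝ) (j Y : ℕ) : ‖W mob β j Y‖ ≤ Y := by
  unfold W
  calc ‖∑ n ∈ Ioc j (j + Y), (mob n : ℂ) * ee (n * β)‖ ≤ ∑ n ∈ Ioc j (j + Y), ‖(mob n : ℂ) * ee (n * β)‖ :=
        norm_sum_le _ _
    _ ≤ ∑ n ∈ Ioc j (j + Y), (1 : ℝ) := Finset.sum_le_sum fun n _ => term_norm n β
    _ = Y := by simp

theorem sum_div_le (q x : ℕ) (hq : 1 ≤ q) (G : ℕ → ℝ) (hG : ∀ j, 0 ≤ G j) :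
    ∑ m ∈ Ioc x (2 * x), G (m / q) ≤ q * ∑ j ∈ Icc (x / q) (2 * (x / q) + 1), G j := by
  have hmaps : ∀ m ∈ Ioc x (2 * x), m / q ∈ Icc (x / q) (2 * (x / q) + 1) := by
    intro m hm
    rw [mem_Ioc] at hm
    rw [mem_Icc]
    refine ⟨Nat.div_le_div_right hm.1.le, ?_⟩
    have h1 : m / q ≤ 2 * x / q := Nat.div_le_div_right hm.2
    have h2 : 2 * x / q < 2 * (x / q) + 1 + 1 := by
      rw [Nat.div_lt_iff_lt_mul (by omega)]
      have := Nat.lt_div_mul_add (a := x) (b := q) (by omega)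
      nlinarith
    omega
  rw [← Finset.sum_fiberwise_of_maps_to hmaps, Finset.mul_sum]
  apply Finset.sum_le_sum
  intro j _
  have hcard : ((Ioc x (2 * x)).filter (fun m => m / q = j)).card ≤ q := by
    calc ((Ioc x (2 * x)).filter (fun m => m / q = j)).card ≤ (Ico (j * q) (j * q + q)).card := by
          apply Finset.card_le_card
          intro m hm
          rw [Finset.mem_filter] at hm
          rw [mem_Ico]
          have h3 := Nat.div_mul_le_self m q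
          have h4 := Nat.lt_div_mul_add (a := m) (b := q) (by omega)
          rw [hm.2] at h3 h4
          exact ⟨h3, h4⟩
      _ = q := by simp
  calc ∑ m ∈ (Ioc x (2 * x)).filter (fun m => m / q = j), G (m / q)
      = ∑ m ∈ (Ioc x (2 * x)).filter (fun m => m / q = j), G j := by
        apply Finset.sum_congr rfl
        intro m hm
        rw [(Finset.mem_filter.1 hm).2]
    _ = ((Ioc x (2 * x)).filter (fun m => m / q = j)).card * G j := by
        rw [Finset.sum_const, nsmul_eq_mul]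
    _ ≤ q * G j := by
        apply mul_le_mul_of_nonneg_right _ (hG j)
        exact_mod_cast hcard

theorem MS_md (d : ℕ) (hd : 1 ≤ d) (α : ℝ) (x Y : ℕ) :
    MS (md d) α x Y ≤ 2 * ((d : ℝ) ^ 2 * (MS mob (((d ^ 2 : ℕ) : ℝ) * α) (x / d ^ 2) (Y / d ^ 2) +
      2 * ((Y / d ^ 2 : ℕ) : ℝ) ^ 2)) + 2 * x := by
  set q := d ^ 2 with hq
  have hq1 : 1 ≤ q := Nat.one_le_pow _ _ (by omega)
  set β : ℝ := ((q : ℕ) : ℝ) * α with hβ
  set Y' := Y / q with hY'
  have hstep : ∀ m ∈ Ioc x (2 * x), ‖W (md d) α m Y‖ ^ 2 ≤ 2 * ‖W mob β (m / q) Y'‖ ^ 2 + 2 := by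
    intro m _
    have h1 := W_md_near d hd α m Y
    have h2 : ‖W (md d) α m Y‖ ≤ ‖W mob β (m / q) Y'‖ + 1 := by
      calc ‖W (md d) α m Y‖ = ‖W mob β (m / q) Y' + (W (md d) α m Y - W mob β (m / q) Y')‖ := by
            congr 1; ring
        _ ≤ ‖W mob β (m / q) Y'‖ + ‖W (md d) α m Y - W mob β (m / q) Y'‖ := norm_add_le _ _
        _ ≤ ‖W mob β (m / q) Y'‖ + 1 := by gcongr
    have h3 := norm_nonneg (W (md d) α m Y)
    have h4 := norm_nonneg (W mob β (m / q) Y')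
    nlinarith [sq_nonneg (‖W mob β (m / q) Y'‖ - 1)]
  have hG : ∀ j, 0 ≤ ‖W mob β j Y'‖ ^ 2 := fun j => by positivity
  have h5 := sum_div_le q x hq1 (fun j => ‖W mob β j Y'‖ ^ 2) hG
  have h6 : ∑ j ∈ Icc (x / q) (2 * (x / q) + 1), ‖W mob β j Y'‖ ^ 2 ≤
      MS mob β (x / q) Y' + 2 * (Y' : ℝ) ^ 2 := by
    rw [Finset.sum_Icc_succ_top (by omega), ← Finset.add_sum_Ioc_eq_sum_Icc (by omega)]
    have ha : ∀ j, ‖W mob β j Y'‖ ^ 2 ≤ (Y' : ℝ) ^ 2 := fun j =>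
      pow_le_pow_left₀ (norm_nonneg _) (W_mob_trivial β j Y') 2
    have h7 := ha (x / q)
    have h8 := ha (2 * (x / q) + 1)
    unfold MS
    linarith
  have hq' : ((q : ℕ) : ℝ) = (d : ℝ) ^ 2 := by rw [hq]; push_cast; ring
  calc MS (md d) α x Y = ∑ m ∈ Ioc x (2 * x), ‖W (md d) α m Y‖ ^ 2 := rfl
    _ ≤ ∑ m ∈ Ioc x (2 * x), (2 * ‖W mob β (m / q) Y'‖ ^ 2 + 2) := Finset.sum_le_sum hstep
    _ = 2 * ∑ m ∈ Ioc x (2 * x), ‖W mob β (m / q) Y'‖ ^ 2 + 2 * x := by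
        rw [Finset.sum_add_distrib, ← Finset.mul_sum, Finset.sum_const, Nat.card_Ioc, nsmul_eq_mul]
        congr 1
        have : 2 * x - x = x := by omega
        rw [this]; ring
    _ ≤ 2 * (q * ∑ j ∈ Icc (x / q) (2 * (x / q) + 1), ‖W mob β j Y'‖ ^ 2) + 2 * x := by
        have := h5
        linarith
    _ ≤ 2 * ((q : ℝ) * (MS mob β (x / q) Y' + 2 * (Y' : ℝ) ^ 2)) + 2 * x := by
        have : (0 : ℝ) ≤ q := by positivity
        have := mul_le_mul_of_nonneg_left h6 this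
        linarith
    _ = _ := by rw [hq']

/-! ## The remainder -/

theorem rd_sum (D N : ℕ) (hD : 1 ≤ D) : ∑ n ∈ Ioc 0 N, rd D n ≤ N / D := by
  classical
  have h1 : ∀ n ∈ Ioc 0 N, rd D n ≤ ∑ d ∈ Ioc D N, (if d ^ 2 ∣ n then (1 : ℝ) else 0) := by
    intro n hn
    rw [mem_Ioc] at hn
    unfold rd
    split_ifs with h
    · obtain ⟨d, hd, hdn⟩ := h
      have hd1 : d ≤ N := by
        have : d ^ 2 ≤ n := Nat.le_of_dvd hn.1 hdn
        nlinarith
      calc (1 : ℝ) = if d ^ 2 ∣ n then 1 else 0 := by rw [if_pos hdn]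
        _ ≤ _ := Finset.single_le_sum (f := fun d => if d ^ 2 ∣ n then (1 : ℝ) else 0)
          (fun i _ => by split_ifs <;> norm_num) (mem_Ioc.2 ⟨hd, hd1⟩)
    · exact Finset.sum_nonneg fun i _ => by split_ifs <;> norm_num
  rcases Nat.lt_or_ge N D with hND | hND
  · have : ∑ n ∈ Ioc 0 N, rd D n ≤ ∑ n ∈ Ioc 0 N, (0 : ℝ) := by
      apply Finset.sum_le_sum
      intro n hn
      have := h1 n hn
      rw [Finset.Ioc_eq_empty (by omega), Finset.sum_empty] at this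
      exact this
    rw [Finset.sum_const_zero] at this
    have h2 : (0 : ℝ) ≤ N / D := by positivity
    linarith
  calc ∑ n ∈ Ioc 0 N, rd D n ≤ ∑ n ∈ Ioc 0 N, ∑ d ∈ Ioc D N, (if d ^ 2 ∣ n then (1 : ℝ) else 0) :=
        Finset.sum_le_sum h1
    _ = ∑ d ∈ Ioc D N, ∑ n ∈ Ioc 0 N, (if d ^ 2 ∣ n then (1 : ℝ) else 0) := Finset.sum_comm
    _ = ∑ d ∈ Ioc D N, ((N / d ^ 2 : ℕ) : ℝ) := by
        apply Finset.sum_congr rfl
        intro d hd
        rw [← Nat.Ioc_filter_dvd_card_eq_div, Finset.card_filter]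
        push_cast
        rfl
    _ ≤ ∑ d ∈ Ioc D N, (N : ℝ) * ((d : ℝ) ^ 2)⁻¹ := by
        apply Finset.sum_le_sum
        intro d _
        calc ((N / d ^ 2 : ℕ) : ℝ) ≤ (N : ℝ) / ((d ^ 2 : ℕ) : ℝ) := Nat.cast_div_le
          _ = (N : ℝ) * ((d : ℝ) ^ 2)⁻¹ := by push_cast; rw [div_eq_mul_inv]
    _ = N * ∑ d ∈ Ioc D N, ((d : ℝ) ^ 2)⁻¹ := by rw [Finset.mul_sum]
    _ ≤ N * ((D : ℝ)⁻¹ - (N : ℝ)⁻¹) := by
        gcongr
        exact sum_Ioc_inv_sq_le_sub (by omega) hND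
    _ ≤ N * (D : ℝ)⁻¹ := by
        have : (0 : ℝ) ≤ (N : ℝ)⁻¹ := by positivity
        gcongr
        linarith
    _ = N / D := by rw [div_eq_mul_inv]

theorem MS_rem (D : ℕ) (hD : 1 ≤ D) (R : ℕ → ℝ) (hR : ∀ n, 1 ≤ n → |R n| ≤ rd D n) (α : ℝ) (x Y : ℕ)
    (hY : Y ≤ x) : MS R α x Y ≤ 3 * x * (Y : ℝ) ^ 2 / D := by
  classical
  have hW : ∀ m, ‖W R α m Y‖ ≤ ∑ n ∈ Ioc m (m + Y), rd D n := by
    intro m
    unfold W
    refine (norm_sum_le _ _).trans (Finset.sum_le_sum fun n hn => ?_)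
    rw [norm_mul, ee_norm, mul_one, Complex.norm_real, Real.norm_eq_abs]
    rw [mem_Ioc] at hn
    exact hR n (by omega)
  have hT : ∀ m, ∑ n ∈ Ioc m (m + Y), rd D n ≤ Y := by
    intro m
    calc ∑ n ∈ Ioc m (m + Y), rd D n ≤ ∑ n ∈ Ioc m (m + Y), (1 : ℝ) :=
          Finset.sum_le_sum fun n _ => rd_le_one D n
      _ = Y := by simp
  have hT0 : ∀ m, 0 ≤ ∑ n ∈ Ioc m (m + Y), rd D n := fun m => Finset.sum_nonneg fun n _ => rd_nonneg D n
  have hsq : ∀ m, ‖W R α m Y‖ ^ 2 ≤ Y * ∑ n ∈ Ioc m (m + Y), rd D n := by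
    intro m
    have h1 := hW m
    have h2 := hT m
    have h3 := norm_nonneg (W R α m Y)
    have h4 := hT0 m
    nlinarith
  have hdouble : ∑ m ∈ Ioc x (2 * x), ∑ n ∈ Ioc m (m + Y), rd D n ≤ Y * (3 * x / D) := by
    calc ∑ m ∈ Ioc x (2 * x), ∑ n ∈ Ioc m (m + Y), rd D n
        = ∑ m ∈ Ioc x (2 * x), ∑ n ∈ Ioc 0 (3 * x), (if m < n ∧ n ≤ m + Y then rd D n else 0) := by
          apply Finset.sum_congr rfl
          intro m hm
          rw [mem_Ioc] at hm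
          rw [← Finset.sum_filter]
          apply Finset.sum_congr _ fun _ _ => rfl
          ext n
          simp only [mem_Ioc, Finset.mem_filter]
          omega
      _ = ∑ n ∈ Ioc 0 (3 * x), ∑ m ∈ Ioc x (2 * x), (if m < n ∧ n ≤ m + Y then rd D n else 0) :=
          Finset.sum_comm
      _ ≤ ∑ n ∈ Ioc 0 (3 * x), Y * rd D n := by
          apply Finset.sum_le_sum
          intro n _
          rw [← Finset.sum_filter, Finset.sum_const, nsmul_eq_mul]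
          apply mul_le_mul_of_nonneg_right _ (rd_nonneg D n)
          have : ((Ioc x (2 * x)).filter (fun m => m < n ∧ n ≤ m + Y)).card ≤ Y := by
            calc ((Ioc x (2 * x)).filter (fun m => m < n ∧ n ≤ m + Y)).card ≤ (Ico (n - Y) n).card := by
                  apply Finset.card_le_card
                  intro m hm
                  rw [Finset.mem_filter] at hm
                  rw [mem_Ico]
                  omega
              _ ≤ Y := by rw [Nat.card_Ico]; omega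
          exact_mod_cast this
      _ = Y * ∑ n ∈ Ioc 0 (3 * x), rd D n := by rw [Finset.mul_sum]
      _ ≤ Y * (((3 * x : ℕ) : ℝ) / D) := by
          gcongr
          exact rd_sum D (3 * x) hD
      _ = Y * (3 * x / D) := by push_cast; ring
  calc MS R α x Y = ∑ m ∈ Ioc x (2 * x), ‖W R α m Y‖ ^ 2 := rfl
    _ ≤ ∑ m ∈ Ioc x (2 * x), Y * ∑ n ∈ Ioc m (m + Y), rd D n := Finset.sum_le_sum fun m _ => hsq m
    _ = Y * ∑ m ∈ Ioc x (2 * x), ∑ n ∈ Ioc m (m + Y), rd D n := by rw [Finset.mul_sum]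
    _ ≤ Y * (Y * (3 * x / D)) := by gcongr
    _ = _ := by ring

theorem MS_lio (D : ℕ) (hD : 1 ≤ D) (α : ℝ) (x Y : ℕ) (hY : Y ≤ x) :
    MS lio α x Y ≤ 2 * (D * ∑ d ∈ Icc 1 D, MS (md d) α x Y) + 2 * (3 * x * (Y : ℝ) ^ 2 / D) := by
  set R : ℕ → ℝ := fun n => lio n - ∑ d ∈ Icc 1 D, md d n with hR
  have hrem := MS_rem D hD R (fun n hn => lio_decomp D n hn) α x Y hY
  have hW : ∀ m, W lio α m Y = ∑ d ∈ Icc 1 D, W (md d) α m Y + W R α m Y := by
    intro m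
    unfold W
    rw [Finset.sum_comm, ← Finset.sum_add_distrib]
    apply Finset.sum_congr rfl
    intro n _
    rw [← Finset.sum_mul, ← add_mul]
    congr 1
    rw [hR]
    push_cast
    ring
  have hsq : ∀ m, ‖W lio α m Y‖ ^ 2 ≤ 2 * (D * ∑ d ∈ Icc 1 D, ‖W (md d) α m Y‖ ^ 2) + 2 * ‖W R α m Y‖ ^ 2 := by
    intro m
    have h1 : ‖W lio α m Y‖ ≤ ∑ d ∈ Icc 1 D, ‖W (md d) α m Y‖ + ‖W R α m Y‖ := by
      rw [hW m]
      exact (norm_add_le _ _).trans (add_le_add_left (norm_sum_le _ _) _)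
    have h2 : (∑ d ∈ Icc 1 D, ‖W (md d) α m Y‖) ^ 2 ≤ D * ∑ d ∈ Icc 1 D, ‖W (md d) α m Y‖ ^ 2 := by
      have := sq_sum_le_card_mul_sum_sq (s := Icc 1 D) (f := fun d => ‖W (md d) α m Y‖)
      simpa using this
    have h3 := norm_nonneg (W lio α m Y)
    have h4 : 0 ≤ ∑ d ∈ Icc 1 D, ‖W (md d) α m Y‖ := Finset.sum_nonneg fun _ _ => norm_nonneg _
    have h5 := norm_nonneg (W R α m Y)
    nlinarith [sq_nonneg (∑ d ∈ Icc 1 D, ‖W (md d) α m Y‖ - ‖W R α m Y‖)]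
  calc MS lio α x Y = ∑ m ∈ Ioc x (2 * x), ‖W lio α m Y‖ ^ 2 := rfl
    _ ≤ ∑ m ∈ Ioc x (2 * x), (2 * (D * ∑ d ∈ Icc 1 D, ‖W (md d) α m Y‖ ^ 2) + 2 * ‖W R α m Y‖ ^ 2) :=
        Finset.sum_le_sum fun m _ => hsq m
    _ = 2 * (D * ∑ d ∈ Icc 1 D, MS (md d) α x Y) + 2 * MS R α x Y := by
        rw [Finset.sum_add_distrib, ← Finset.mul_sum, ← Finset.mul_sum, ← Finset.mul_sum, Finset.sum_comm]
        rfl
    _ ≤ _ := by linarith

/-! ## Assembly -/

theorem eventually_logs (A : ℝ) (M X₀ : ℕ) : ∃ X₁ : ℕ, ∀ x : ℕ, X₁ ≤ x →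
    A ≤ Real.log x ∧ Real.log x ^ M ≤ √(x : ℝ) ∧ (X₀ : ℝ) + 2 ≤ √(x : ℝ) := by
  have hcast : Filter.Tendsto (fun n : ℕ => (n : ℝ)) Filter.atTop Filter.atTop := tendsto_natCast_atTop_atTop
  have h1 : ∀ᶠ x : ℕ in Filter.atTop, A ≤ Real.log x :=
    (Real.tendsto_log_atTop.comp hcast).eventually_ge_atTop A
  have h2 : ∀ᶠ x : ℕ in Filter.atTop, Real.log x ^ (2 * M) ≤ x := by
    have h := (Real.isLittleO_pow_log_id_atTop (n := 2 * M)).bound (show (0 : ℝ) < 1 by norm_num)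
    have h' := hcast.eventually h
    filter_upwards [h'] with x hx
    have : |Real.log x ^ (2 * M)| ≤ 1 * |(x : ℝ)| := by simpa using hx
    rw [one_mul, abs_of_nonneg (show (0 : ℝ) ≤ x by positivity)] at this
    exact (le_abs_self _).trans this
  have h3 : ∀ᶠ x : ℕ in Filter.atTop, (X₀ : ℝ) + 2 ≤ √(x : ℝ) :=
    (Real.tendsto_sqrt_atTop.comp hcast).eventually_ge_atTop _
  obtain ⟨X₁, hX⟩ := Filter.eventually_atTop.1 (h1.and (h2.and h3))
  refine ⟨X₁, fun x hx => ?_⟩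
  obtain ⟨a, b, c⟩ := hX x hx
  refine ⟨a, ?_, c⟩
  apply Real.le_sqrt_of_sq_le
  rw [← pow_mul, mul_comm M 2]
  exact b

theorem lio_of_mob (h : S_ALLg mob) : S_ALLg lio := by
  intro U
  set K := U + 1 with hK
  set U' := U + 2 * K + 2 with hU'
  obtain ⟨C₀, X₀, h₀⟩ := h U'
  obtain ⟨X₁, hX₁⟩ := eventually_logs (16 * 2 ^ U') (U + 2 * K + 3) X₀
  refine ⟨C₀ + U + 2 * K + 2, X₁, fun x hx Y hYl hYu α => ?_⟩
  obtain ⟨hA, hM, hS⟩ := hX₁ x hx
  set L := Real.log x with hL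
  have h2U : (1 : ℝ) ≤ 2 ^ U' := one_le_pow₀ (by norm_num)
  have h2U4 : (4 : ℝ) ≤ 2 ^ U' := by
    have : (2 : ℝ) ^ 2 ≤ 2 ^ U' := pow_le_pow_right₀ (by norm_num) (by omega)
    linarith
  have hL64 : (64 : ℝ) ≤ L := by linarith
  have hL1 : (1 : ℝ) ≤ L := by linarith
  have hL0 : (0 : ℝ) < L := by linarith
  have hx0 : (0 : ℝ) < x := by
    by_contra hcon
    have : (x : ℝ) = 0 := le_antisymm (not_lt.1 hcon) (by positivity)
    rw [hL, this, Real.log_zero] at hL1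
    linarith
  have hsx : √(x : ℝ) * √(x : ℝ) = x := Real.mul_self_sqrt hx0.le
  have hX0 : (0 : ℝ) ≤ X₀ := by positivity
  have hs2 : (2 : ℝ) ≤ √(x : ℝ) := by linarith
  -- the number of square factors
  set D := ⌈L ^ K⌉₊ with hD
  have hDl : L ^ K ≤ D := Nat.le_ceil _
  have hLK1 : (1 : ℝ) ≤ L ^ K := one_le_pow₀ hL1
  have hDu : (D : ℝ) ≤ 2 * L ^ K := by
    have := (Nat.ceil_lt_add_one (show (0 : ℝ) ≤ L ^ K by positivity)).le
    linarith
  have hD1 : 1 ≤ D := by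
    have : (1 : ℝ) ≤ D := by linarith
    exact_mod_cast this
  have hDsq : (D : ℝ) ^ 2 ≤ L ^ (2 * K + 1) := by
    have h1 : (D : ℝ) ^ 2 ≤ (2 * L ^ K) ^ 2 := pow_le_pow_left₀ (by positivity) hDu 2
    have h2 : (2 * L ^ K) ^ 2 = 4 * L ^ (2 * K) := by rw [mul_pow, ← pow_mul, mul_comm K 2]; norm_num
    have h3 : L ^ (2 * K + 1) = L * L ^ (2 * K) := by rw [pow_succ]; ring
    rw [h3]
    have h4 : (0 : ℝ) ≤ L ^ (2 * K) := by positivity
    exact (h1.trans_eq h2).trans (mul_le_mul_of_nonneg_right (by linarith) h4)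
  have hpow : L ^ (U + 2 * K + 3) = L ^ (2 * K + 1) * L ^ (U + 2) := by rw [← pow_add]; congr 1; omega
  have hLU2 : (64 : ℝ) ≤ L ^ (U + 2) := by
    calc (64 : ℝ) ≤ L := hL64
      _ = L ^ 1 := (pow_one L).symm
      _ ≤ L ^ (U + 2) := pow_le_pow_right₀ hL1 (by omega)
  have hLq : L ^ (2 * K + 1) * 64 ≤ √(x : ℝ) := by
    have h1 : (0 : ℝ) ≤ L ^ (2 * K + 1) := by positivity
    calc L ^ (2 * K + 1) * 64 ≤ L ^ (2 * K + 1) * L ^ (U + 2) := by gcongr
      _ ≤ √(x : ℝ) := by rw [← hpow]; exact hM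
  have hLC : (1 : ℝ) ≤ L ^ (C₀ + U + 2 * K + 2) := one_le_pow₀ hL1
  have hYx : Y ≤ x := by
    have h1 : (Y : ℝ) ≤ x := (le_mul_of_one_le_right (Nat.cast_nonneg Y) hLC).trans hYu
    exact_mod_cast h1
  have hx3 : (1 : ℝ) ≤ (x : ℝ) ^ (1 / 3 : ℝ) := by
    apply Real.one_le_rpow _ (by norm_num)
    rw [← hsx]
    exact one_le_mul_of_one_le_of_one_le (by linarith) (by linarith)
  have hYL : L ^ (C₀ + U + 2 * K + 2) ≤ Y := by
    have : (0 : ℝ) ≤ L ^ (C₀ + U + 2 * K + 2) := by positivity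
    exact (le_mul_of_one_le_left this hx3).trans hYl
  have hY1 : (1 : ℝ) ≤ Y := hLC.trans hYL
  -- every `d`
  have hd : ∀ d ∈ Icc 1 D, MS (md d) α x Y ≤ 2 * (x * (Y : ℝ) ^ 2 * 2 ^ U' / L ^ U') + 4 * (Y : ℝ) ^ 2 + 2 * x := by
    intro d hd
    rw [mem_Icc] at hd
    have hm := MS_md d hd.1 α x Y
    set q := d ^ 2 with hq
    have hq1 : 1 ≤ q := Nat.one_le_pow _ _ (by omega)
    have hq1r : (1 : ℝ) ≤ q := by exact_mod_cast hq1
    have hq0 : (0 : ℝ) < q := by linarith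
    have hqd : (q : ℝ) = (d : ℝ) ^ 2 := by rw [hq]; push_cast; ring
    have hqL : (q : ℝ) ≤ L ^ (2 * K + 1) := by
      rw [hqd]
      have : (d : ℝ) ≤ D := by exact_mod_cast hd.2
      exact (pow_le_pow_left₀ (by positivity) this 2).trans hDsq
    -- the quotients
    have hxq : 64 * √(x : ℝ) ≤ x / q := by
      rw [le_div_iff₀ hq0]
      have h1 : (q : ℝ) * 64 ≤ √(x : ℝ) := (mul_le_mul_of_nonneg_right hqL (by norm_num)).trans hLq
      calc 64 * √(x : ℝ) * q = √(x : ℝ) * (q * 64) := by ring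
        _ ≤ √(x : ℝ) * √(x : ℝ) := mul_le_mul_of_nonneg_left h1 (Real.sqrt_nonneg _)
        _ = x := hsx
    have hx'l : (x : ℝ) / q - 1 ≤ ((x / q : ℕ) : ℝ) := by
      have h1 : (x : ℝ) < ((x / q : ℕ) + 1) * q := by
        have := Nat.lt_div_mul_add (a := x) (b := q) (by omega)
        have h2 : x < (x / q + 1) * q := by rw [add_mul, one_mul]; exact this
        exact_mod_cast h2
      have h3 : (x : ℝ) / q < (x / q : ℕ) + 1 := by rw [div_lt_iff₀ hq0]; exact h1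
      linarith
    have hx'u : ((x / q : ℕ) : ℝ) ≤ (x : ℝ) / q := Nat.cast_div_le
    have hY'l : (Y : ℝ) / q - 1 ≤ ((Y / q : ℕ) : ℝ) := by
      have h1 : (Y : ℝ) < ((Y / q : ℕ) + 1) * q := by
        have := Nat.lt_div_mul_add (a := Y) (b := q) (by omega)
        have h2 : Y < (Y / q + 1) * q := by rw [add_mul, one_mul]; exact this
        exact_mod_cast h2
      have h3 : (Y : ℝ) / q < (Y / q : ℕ) + 1 := by rw [div_lt_iff₀ hq0]; exact h1
      linarith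
    have hY'u : ((Y / q : ℕ) : ℝ) ≤ (Y : ℝ) / q := Nat.cast_div_le
    set x' := x / q with hx'
    set Y' := Y / q with hY'
    have hx's : √(x : ℝ) ≤ x' := by linarith
    have hx'x : (x' : ℝ) ≤ x := by
      have : (x : ℝ) / q ≤ x := div_le_self hx0.le hq1r
      linarith
    have hx'0 : (0 : ℝ) < x' := by linarith
    have hlog2 : L / 2 ≤ Real.log x' := by
      have h1 : Real.log (√(x : ℝ)) = L / 2 := by rw [Real.log_sqrt hx0.le]
      rw [← h1]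
      exact Real.log_le_log (by linarith) hx's
    have hlogu : Real.log x' ≤ L := Real.log_le_log hx'0 hx'x
    have hlog0 : 0 ≤ Real.log x' := by linarith
    have hpC : Real.log x' ^ C₀ ≤ L ^ C₀ := pow_le_pow_left₀ hlog0 hlogu C₀
    have hLC0 : (0 : ℝ) < L ^ C₀ := by positivity
    have hLC01 : (1 : ℝ) ≤ L ^ C₀ := one_le_pow₀ hL1
    have hC1 : L ^ (C₀ + U + 2 * K + 2) = L ^ (2 * K + 1) * (L ^ C₀ * L ^ (U + 1)) := by
      rw [← pow_add, ← pow_add]; congr 1; omega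
    have hLU1 : (64 : ℝ) ≤ L ^ (U + 1) := by
      calc (64 : ℝ) ≤ L := hL64
        _ = L ^ 1 := (pow_one L).symm
        _ ≤ L ^ (U + 1) := pow_le_pow_right₀ hL1 (by omega)
    have hc1 : X₀ ≤ x' := by
      have : (X₀ : ℝ) ≤ x' := by linarith
      exact_mod_cast this
    have hc2 : (x' : ℝ) ^ (1 / 3 : ℝ) * Real.log x' ^ C₀ ≤ Y' := by
      have h1 : (x' : ℝ) ^ (1 / 3 : ℝ) ≤ (x : ℝ) ^ (1 / 3 : ℝ) :=
        Real.rpow_le_rpow hx'0.le hx'x (by norm_num)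
      have h2 : (x' : ℝ) ^ (1 / 3 : ℝ) * Real.log x' ^ C₀ ≤ (x : ℝ) ^ (1 / 3 : ℝ) * L ^ C₀ := by
        gcongr
      have h3 : (x : ℝ) ^ (1 / 3 : ℝ) * L ^ C₀ * 64 ≤ Y / q := by
        rw [le_div_iff₀ hq0]
        calc (x : ℝ) ^ (1 / 3 : ℝ) * L ^ C₀ * 64 * q
            ≤ (x : ℝ) ^ (1 / 3 : ℝ) * L ^ C₀ * L ^ (U + 1) * L ^ (2 * K + 1) := by gcongr
          _ = (x : ℝ) ^ (1 / 3 : ℝ) * L ^ (C₀ + U + 2 * K + 2) := by rw [hC1]; ring
          _ ≤ Y := hYl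
      have h4 : (1 : ℝ) ≤ (x : ℝ) ^ (1 / 3 : ℝ) * L ^ C₀ := one_le_mul_of_one_le_of_one_le hx3 hLC01
      linarith
    have hc3 : (Y' : ℝ) * Real.log x' ^ C₀ ≤ x' := by
      have h1 : (Y' : ℝ) * Real.log x' ^ C₀ ≤ Y / q * L ^ C₀ := by gcongr
      have h2 : (Y : ℝ) * L ^ C₀ * 64 ≤ x := by
        calc (Y : ℝ) * L ^ C₀ * 64 ≤ Y * L ^ C₀ * L ^ (U + 1) := by gcongr
          _ ≤ Y * L ^ C₀ * L ^ (U + 1) * L ^ (2 * K + 1) :=
            le_mul_of_one_le_right (by positivity) (one_le_pow₀ hL1)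
          _ = Y * L ^ (C₀ + U + 2 * K + 2) := by rw [hC1]; ring
          _ ≤ x := hYu
      have h3 : (Y : ℝ) / q * L ^ C₀ * 64 ≤ x / q := by
        calc (Y : ℝ) / q * L ^ C₀ * 64 = (Y * L ^ C₀ * 64) / q := by ring
          _ ≤ x / q := by gcongr
      have h4 : (0 : ℝ) ≤ Y / q * L ^ C₀ := by positivity
      linarith
    have happ := h₀ x' hc1 Y' hc2 hc3 ((q : ℝ) * α)
    -- the bound
    have hden : L ^ U' / 2 ^ U' ≤ Real.log x' ^ U' := by
      rw [← div_pow]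
      exact pow_le_pow_left₀ (by positivity) hlog2 U'
    have hLU0 : (0 : ℝ) < L ^ U' / 2 ^ U' := by positivity
    have h5 : (q : ℝ) * MS mob ((q : ℝ) * α) x' Y' ≤ x * (Y : ℝ) ^ 2 * 2 ^ U' / L ^ U' := by
      calc (q : ℝ) * MS mob ((q : ℝ) * α) x' Y' ≤ q * (x' * (Y' : ℝ) ^ 2 / Real.log x' ^ U') := by gcongr
        _ ≤ q * (x' * (Y' : ℝ) ^ 2 / (L ^ U' / 2 ^ U')) := by gcongr
        _ = (q * x') * (Y' : ℝ) ^ 2 * 2 ^ U' / L ^ U' := by field_simp
        _ ≤ x * (Y : ℝ) ^ 2 * 2 ^ U' / L ^ U' := by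
          have h6 : (q : ℝ) * x' ≤ x := by
            calc (q : ℝ) * x' ≤ q * (x / q) := by gcongr
              _ = x := by field_simp
          have h7 : (Y' : ℝ) ≤ Y := by
            have : (Y : ℝ) / q ≤ Y := div_le_self (by positivity) hq1r
            linarith
          gcongr
    have h8 : (q : ℝ) * (Y' : ℝ) ^ 2 ≤ (Y : ℝ) ^ 2 := by
      have h6 : (q : ℝ) * Y' ≤ Y := by
        calc (q : ℝ) * Y' ≤ q * (Y / q) := by gcongr
          _ = Y := by field_simp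
      have h7 : (Y' : ℝ) ≤ Y := by
        have : (Y : ℝ) / q ≤ Y := div_le_self (by positivity) hq1r
        linarith
      have h9 : (0 : ℝ) ≤ Y' := by positivity
      calc (q : ℝ) * (Y' : ℝ) ^ 2 = (q * Y') * Y' := by ring
        _ ≤ Y * Y := by gcongr
        _ = (Y : ℝ) ^ 2 := by ring
    rw [← hqd] at hm
    calc MS (md d) α x Y ≤ 2 * ((q : ℝ) * (MS mob ((q : ℝ) * α) x' Y' + 2 * (Y' : ℝ) ^ 2)) + 2 * x := hm
      _ = 2 * ((q : ℝ) * MS mob ((q : ℝ) * α) x' Y') + 4 * ((q : ℝ) * (Y' : ℝ) ^ 2) + 2 * x := by ring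
      _ ≤ _ := by linarith
  -- total
  have hsum : ∑ d ∈ Icc 1 D, MS (md d) α x Y ≤
      D * (2 * (x * (Y : ℝ) ^ 2 * 2 ^ U' / L ^ U') + 4 * (Y : ℝ) ^ 2 + 2 * x) := by
    calc ∑ d ∈ Icc 1 D, MS (md d) α x Y ≤
        ∑ d ∈ Icc 1 D, (2 * (x * (Y : ℝ) ^ 2 * 2 ^ U' / L ^ U') + 4 * (Y : ℝ) ^ 2 + 2 * x) := Finset.sum_le_sum hd
      _ = _ := by rw [Finset.sum_const, Nat.card_Icc, nsmul_eq_mul]; simp
  set B : ℝ := 2 * (x * (Y : ℝ) ^ 2 * 2 ^ U' / L ^ U') + 4 * (Y : ℝ) ^ 2 + 2 * x with hB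
  have hB0 : 0 ≤ B := by positivity
  set T : ℝ := x * (Y : ℝ) ^ 2 / L ^ U with hT
  have hT0 : 0 ≤ T := by positivity
  have hLU : (0 : ℝ) < L ^ U := by positivity
  have e1 : L ^ (2 * K + 1) * (x * (Y : ℝ) ^ 2 * 2 ^ U' / L ^ U') ≤ T / 16 := by
    have h1 : L ^ U' = L ^ (2 * K + 1) * (L ^ U * L) := by
      rw [← pow_succ, ← pow_add]; congr 1; omega
    rw [h1, hT]
    have h2 : L ^ (2 * K + 1) * (x * (Y : ℝ) ^ 2 * 2 ^ U' / (L ^ (2 * K + 1) * (L ^ U * L))) =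
        (x * (Y : ℝ) ^ 2 / L ^ U) * (2 ^ U' / L) := by
      have : L ^ (2 * K + 1) ≠ 0 := by positivity
      field_simp
    rw [h2, div_eq_mul_inv _ (16 : ℝ)]
    apply mul_le_mul_of_nonneg_left _ hT0
    rw [div_le_iff₀ hL0]
    linarith
  have e2 : L ^ (2 * K + 1) * (Y : ℝ) ^ 2 ≤ T / 64 := by
    have h1 : L ^ (2 * K + 1) * 64 * L ^ U ≤ x := by
      have h2 : L ^ (2 * K + 1) * 64 * L ^ U ≤ L ^ (U + 2 * K + 3) := by
        rw [hpow]
        have h3 : L ^ (U + 2) = L * L * L ^ U := by rw [pow_add]; ring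
        rw [h3]
        have h4 : (0 : ℝ) ≤ L ^ (2 * K + 1) * L ^ U := by positivity
        have h5 : (64 : ℝ) ≤ L * L := hL64.trans (le_mul_of_one_le_left hL0.le hL1)
        calc L ^ (2 * K + 1) * 64 * L ^ U = L ^ (2 * K + 1) * L ^ U * 64 := by ring
          _ ≤ L ^ (2 * K + 1) * L ^ U * (L * L) := by gcongr
          _ = _ := by ring
      have h6 : √(x : ℝ) ≤ x := (le_mul_of_one_le_left (Real.sqrt_nonneg _) (by linarith)).trans_eq hsx
      linarith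
    rw [hT, div_div, le_div_iff₀ (by positivity)]
    calc L ^ (2 * K + 1) * (Y : ℝ) ^ 2 * (L ^ U * 64) = (L ^ (2 * K + 1) * 64 * L ^ U) * (Y : ℝ) ^ 2 := by ring
      _ ≤ x * (Y : ℝ) ^ 2 := by gcongr
  have e3 : L ^ (2 * K + 1) * x ≤ T / 64 := by
    have h1 : L ^ (2 * K + 1) * 64 * L ^ U ≤ (Y : ℝ) ^ 2 := by
      have h2 : L ^ (2 * K + 1) * 64 * L ^ U ≤ L ^ (C₀ + U + 2 * K + 2) := by
        have h3 : L ^ (C₀ + U + 2 * K + 2) = L ^ (2 * K + 1) * L ^ U * (L * L ^ C₀) := by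
          rw [← pow_succ', ← pow_add, ← pow_add]; congr 1; omega
        rw [h3]
        have h4 : (1 : ℝ) ≤ L ^ C₀ := one_le_pow₀ hL1
        have h5 : (64 : ℝ) ≤ L * L ^ C₀ := hL64.trans (le_mul_of_one_le_right hL0.le h4)
        calc L ^ (2 * K + 1) * 64 * L ^ U = L ^ (2 * K + 1) * L ^ U * 64 := by ring
          _ ≤ L ^ (2 * K + 1) * L ^ U * (L * L ^ C₀) := by gcongr
      have h6 : (Y : ℝ) ≤ (Y : ℝ) ^ 2 := by
        rw [sq]
        exact le_mul_of_one_le_left (by linarith) hY1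
      linarith
    rw [hT, div_div, le_div_iff₀ (by positivity)]
    calc L ^ (2 * K + 1) * x * (L ^ U * 64) = x * (L ^ (2 * K + 1) * 64 * L ^ U) := by ring
      _ ≤ x * (Y : ℝ) ^ 2 := by gcongr
  have e4 : 3 * x * (Y : ℝ) ^ 2 / D ≤ T * (3 / 64) := by
    calc 3 * x * (Y : ℝ) ^ 2 / D ≤ 3 * x * (Y : ℝ) ^ 2 / L ^ K := by gcongr
      _ = T * (3 / L) := by
        have hLKe : L ^ K = L ^ U * L := by rw [hK, pow_succ]
        rw [hT, hLKe]
        field_simp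
      _ ≤ T * (3 / 64) := by gcongr
  have h9 := MS_lio D hD1 α x Y hYx
  have h10 : (D : ℝ) * ∑ d ∈ Icc 1 D, MS (md d) α x Y ≤ L ^ (2 * K + 1) * B := by
    calc (D : ℝ) * ∑ d ∈ Icc 1 D, MS (md d) α x Y ≤ D * (D * B) := by gcongr
      _ = (D : ℝ) ^ 2 * B := by ring
      _ ≤ L ^ (2 * K + 1) * B := by gcongr
  have h11 : L ^ (2 * K + 1) * B = 2 * (L ^ (2 * K + 1) * (x * (Y : ℝ) ^ 2 * 2 ^ U' / L ^ U')) +
      4 * (L ^ (2 * K + 1) * (Y : ℝ) ^ 2) + 2 * (L ^ (2 * K + 1) * x) := by rw [hB]; ring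
  calc MS lio α x Y ≤ 2 * (D * ∑ d ∈ Icc 1 D, MS (md d) α x Y) + 2 * (3 * x * (Y : ℝ) ^ 2 / D) := h9
    _ ≤ 2 * (2 * (T / 16) + 4 * (T / 64) + 2 * (T / 64)) + 2 * (T * (3 / 64)) := by linarith
    _ ≤ T := by linarith

end Pool.Agent.Run7.h458.MK

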