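import Mathlib
import Pool.Agent.Run7.h458.MK.Fam
import Pool.Agent.Run7.h794.MK.AllL

/-! Project MKM: the sign patterns of the Liouville function at almost all short sparse tuples. -/

set_option autoImplicit false

namespace Pool.Agent.Run7.h458.MK

open Finset Filter
open Pool.Agent.N384.MQ (Flat ev_log_pow ev_log_ge)
open Pool.Agent.Run7.h27.MK (gI)
open Pool.Agent.Run7.h794.MK

/-- exchanging one coordinate -/
lemma sum_update {ι : Type} [DecidableEq ι] (s : Finset ι) (r : ℕ) (l : Fin r) (F : (Fin r → ι) → ℝ) :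
    ∑ i ∈ Fintype.piFinset (fun _ : Fin r => s), ∑ x ∈ s, F (Function.update i l x) =
      s.card * ∑ i ∈ Fintype.piFinset (fun _ : Fin r => s), F i := by
  have h1 : ∑ p ∈ Fintype.piFinset (fun _ : Fin r => s) ×ˢ s, F (Function.update p.1 l p.2) =
      ∑ p ∈ Fintype.piFinset (fun _ : Fin r => s) ×ˢ s, F p.1 := by
    refine Finset.sum_nbij' (fun p => (Function.update p.1 l p.2, p.1 l))
      (fun p => (Function.update p.1 l p.2, p.1 l)) ?_ ?_ ?_ ?_ ?_
    · intro p hp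
      rw [mem_product, Fintype.mem_piFinset] at hp ⊢
      refine ⟨fun a => ?_, hp.1 l⟩
      by_cases ha : a = l
      · subst ha; simp only [Function.update_self]; exact hp.2
      · simp only [Function.update_of_ne ha]; exact hp.1 a
    · intro p hp
      rw [mem_product, Fintype.mem_piFinset] at hp ⊢
      refine ⟨fun a => ?_, hp.1 l⟩
      by_cases ha : a = l
      · subst ha; simp only [Function.update_self]; exact hp.2
      · simp only [Function.update_of_ne ha]; exact hp.1 a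
    · intro p _
      simp
    · intro p _
      simp
    · intro p _
      rfl
  rw [← Finset.sum_product', h1, Finset.sum_product]
  simp only [sum_const, nsmul_eq_mul]
  rw [← Finset.mul_sum]

lemma gI_lio (n c Y : ℕ) (hn : 1 ≤ n) : gI lio ((n : ℤ) + ((c : ℤ) + (Y : ℤ))) = lio (n + c + Y) := by
  unfold gI
  rw [if_pos (by omega)]
  congr 1
  omega

/-- the mean over the tuples of one correlation -/
lemma cor_mean (T Bq U : ℕ) : ∃ V C N₀ : ℕ, ∀ N : ℕ, N₀ ≤ N → ∀ (q : ℕ) [NeZero q],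
    (N : ℝ) ^ (1 / 3 : ℝ) * Real.log N ^ C ≤ q → q ≤ Bq * N →
    ∀ {ι : Type} [DecidableEq ι] (s : Finset ι) (y : ι → ZMod q), s.Nonempty → Flat q (1 / Real.log N ^ V) s y →
    ∀ (r : ℕ) (G : ℕ → ℝ), (∀ n, |G n| ≤ 1) → ∀ w : ℕ, w ≤ N → ∀ k c : ℕ, 1 ≤ k → (k : ℝ) ≤ Real.log N ^ T →
    (c : ℝ) ≤ Real.log N ^ T → ∀ S : Finset (Fin r), S.Nonempty →
    ∑ i ∈ Fintype.piFinset (fun _ : Fin r => s), |∑ n ∈ Icc 1 w, G n * ∏ l ∈ S, lio (n + c + k * (y (i l)).val)| ≤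
      (s.card : ℝ) ^ r * (N / Real.log N ^ U) := by
  obtain ⟨V, C, N₀, h1⟩ := oneg law_lio T Bq U
  refine ⟨V, C, N₀ + 3, fun N hN q _ hq1 hq2 ι _ s y hs hf r G hG w hw k c hk1 hk hc S hS => ?_⟩
  obtain ⟨l₀, hl₀⟩ := hS
  have hs0 : (0 : ℝ) < s.card := by exact_mod_cast hs.card_pos
  have hmsh : Msh V C Bq N q (dis s y) := msh_dis hs hq1 hq2 hf
  have hL0 : 0 < Real.log (N : ℝ) := Real.log_pos (by exact_mod_cast (by omega : 1 < N))
  have key : ∀ i ∈ Fintype.piFinset (fun _ : Fin r => s),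
      ∑ x ∈ s, |∑ n ∈ Icc 1 w, G n * ∏ l ∈ S, lio (n + c + k * (y (Function.update i l₀ x l)).val)| ≤
        s.card * (N / Real.log N ^ U) := by
    intro i _
    have hprod : ∀ (x : ι) (n : ℕ), ∏ l ∈ S, lio (n + c + k * (y (Function.update i l₀ x l)).val) =
        (∏ l ∈ S.erase l₀, lio (n + c + k * (y (i l)).val)) * lio (n + c + k * (y x).val) := by
      intro x n
      rw [← Finset.mul_prod_erase S _ hl₀, Function.update_self, mul_comm]
      congr 1
      apply Finset.prod_congr rfl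
      intro l hl
      rw [Function.update_of_ne (Finset.ne_of_mem_erase hl)]
    have h2 := h1 N (by omega) q (dis s y) hmsh (k : ℤ) (by omega) (by
      rw [Int.natAbs_natCast]; exact hk) (c : ℤ) (by
      have hN1 : (1 : ℝ) ≤ N := by exact_mod_cast (by omega : 1 ≤ N)
      have hc0 : (0 : ℝ) ≤ Real.log N ^ T := by positivity
      rw [Int.cast_natCast, abs_of_nonneg (by positivity)]
      exact hc.trans (le_mul_of_one_le_left hc0 hN1)) 1 one_pos
      (fun n => if n ≤ w then G n * ∏ l ∈ S.erase l₀, lio (n + c + k * (y (i l)).val) else 0) (by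
      intro n _
      split_ifs
      · rw [abs_mul, Finset.abs_prod]
        have h3 : ∏ l ∈ S.erase l₀, |lio (n + c + k * (y (i l)).val)| ≤ 1 :=
          Finset.prod_le_one (fun _ _ => abs_nonneg _) (fun _ _ => abs_lio_le _)
        have h4 : 0 ≤ ∏ l ∈ S.erase l₀, |lio (n + c + k * (y (i l)).val)| :=
          Finset.prod_nonneg fun _ _ => abs_nonneg _
        calc |G n| * ∏ l ∈ S.erase l₀, |lio (n + c + k * (y (i l)).val)| ≤ 1 * 1 :=
              mul_le_mul (hG n) h3 h4 zero_le_one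
          _ = 1 := one_mul 1
      · simp)
    rw [one_mul] at h2
    have h3 : ∀ v : ℕ, ∑ n ∈ Icc 1 N, (if n ≤ w then G n * ∏ l ∈ S.erase l₀, lio (n + c + k * (y (i l)).val) else 0) *
        gI lio ((n : ℤ) + ((c : ℤ) + (k : ℤ) * (v : ℕ))) =
        ∑ n ∈ Icc 1 w, G n * ((∏ l ∈ S.erase l₀, lio (n + c + k * (y (i l)).val)) * lio (n + c + k * v)) := by
      intro v
      rw [← sum_subset (Icc_subset_Icc (le_refl 1) hw)]
      · apply sum_congr rfl
        intro n hn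
        rw [mem_Icc] at hn
        rw [if_pos hn.2]
        have := gI_lio n c (k * v) hn.1
        push_cast at this
        rw [this]
        ring
      · intro n hn hn'
        rw [mem_Icc] at hn hn'
        rw [if_neg (by omega), zero_mul]
    simp only [h3] at h2
    have h4 := dis_sum_real s y q le_rfl
      (fun v => |∑ n ∈ Icc 1 w, G n * ((∏ l ∈ S.erase l₀, lio (n + c + k * (y (i l)).val)) * lio (n + c + k * v))|)
    rw [h4, div_le_iff₀ hs0] at h2
    simp only [hprod]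
    linarith
  have h5 := sum_update s r l₀ (fun i => |∑ n ∈ Icc 1 w, G n * ∏ l ∈ S, lio (n + c + k * (y (i l)).val)|)
  have h6 : (s.card : ℝ) * ∑ i ∈ Fintype.piFinset (fun _ : Fin r => s),
      |∑ n ∈ Icc 1 w, G n * ∏ l ∈ S, lio (n + c + k * (y (i l)).val)| ≤
      s.card * ((s.card : ℝ) ^ r * (N / Real.log N ^ U)) := by
    rw [← h5]
    calc ∑ i ∈ Fintype.piFinset (fun _ : Fin r => s),
          ∑ x ∈ s, |∑ n ∈ Icc 1 w, G n * ∏ l ∈ S, lio (n + c + k * (y (Function.update i l₀ x l)).val)|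
        ≤ ∑ i ∈ Fintype.piFinset (fun _ : Fin r => s), (s.card : ℝ) * (N / Real.log N ^ U) := sum_le_sum key
      _ = _ := by
        rw [sum_const, Fintype.card_piFinset_const, nsmul_eq_mul]
        push_cast
        ring
  exact le_of_mul_le_mul_left h6 hs0

/-- the signs as products -/
lemma pattern_expand (r : ℕ) (x ε : Fin r → ℝ) (hx : ∀ l, x l = 1 ∨ x l = -1) (hε : ∀ l, ε l = 1 ∨ ε l = -1) :
    (if ∀ l, x l = ε l then (1 : ℝ) else 0) = (1 / 2) ^ r * ∑ S : Finset (Fin r), (∏ l ∈ S, ε l) * ∏ l ∈ S, x l := by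
  have h1 : ∑ S : Finset (Fin r), (∏ l ∈ S, ε l) * ∏ l ∈ S, x l = ∏ l : Fin r, (1 + ε l * x l) := by
    rw [Finset.prod_one_add, Finset.powerset_univ]
    apply sum_congr rfl
    intro S _
    rw [Finset.prod_mul_distrib]
  rw [h1]
  split_ifs with h
  · have h2 : ∀ l ∈ (univ : Finset (Fin r)), 1 + ε l * x l = 2 := by
      intro l _
      rw [h l]
      rcases hε l with h3 | h3 <;> rw [h3] <;> norm_num
    rw [Finset.prod_congr rfl h2, prod_const, card_univ, Fintype.card_fin, ← mul_pow]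
    norm_num
  · obtain ⟨l, hl⟩ := not_forall.1 h
    have h2 : 1 + ε l * x l = 0 := by
      rcases hx l with h3 | h3 <;> rcases hε l with h4 | h4
      · exact absurd (h3.trans h4.symm) hl
      · rw [h3, h4]; norm_num
      · rw [h3, h4]; norm_num
      · exact absurd (h3.trans h4.symm) hl
    rw [Finset.prod_eq_zero (mem_univ l) h2, mul_zero]

lemma lio_sign (n : ℕ) (hn : 1 ≤ n) : lio n = 1 ∨ lio n = -1 := by
  unfold lio
  rw [if_neg (by omega)]
  exact neg_one_pow_eq_or ℝ _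

/-- the defect of one pattern from the correlations, prefix -/
lemma pattern_defect (r : ℕ) (G : ℕ → ℝ) (X : ℕ → Fin r → ℝ) (hX : ∀ n, 1 ≤ n → ∀ l, X n l = 1 ∨ X n l = -1)
    (ε : Fin r → ℝ) (hε : ∀ l, ε l = 1 ∨ ε l = -1) (w : ℕ) :
    |∑ n ∈ Icc 1 w, (if ∀ l, X n l = ε l then G n else 0) - (1 / 2) ^ r * ∑ n ∈ Icc 1 w, G n| ≤
      (1 / 2) ^ r * ∑ S ∈ (univ : Finset (Finset (Fin r))).erase ∅, |∑ n ∈ Icc 1 w, G n * ∏ l ∈ S, X n l| := by
  have h1 : ∑ n ∈ Icc 1 w, (if ∀ l, X n l = ε l then G n else 0) =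
      (1 / 2) ^ r * ∑ S : Finset (Fin r), (∏ l ∈ S, ε l) * ∑ n ∈ Icc 1 w, G n * ∏ l ∈ S, X n l := by
    calc ∑ n ∈ Icc 1 w, (if ∀ l, X n l = ε l then G n else 0)
        = ∑ n ∈ Icc 1 w, G n * (if ∀ l, X n l = ε l then (1 : ℝ) else 0) := by
          apply sum_congr rfl
          intro n _
          split_ifs <;> simp
      _ = ∑ n ∈ Icc 1 w, G n * ((1 / 2) ^ r * ∑ S : Finset (Fin r), (∏ l ∈ S, ε l) * ∏ l ∈ S, X n l) := by
          apply sum_congr rfl
          intro n hn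
          rw [pattern_expand r (X n) ε (hX n (mem_Icc.1 hn).1) hε]
      _ = _ := by
          simp only [Finset.mul_sum]
          rw [sum_comm]
          apply sum_congr rfl
          intro S _
          apply sum_congr rfl
          intro n _
          ring
  rw [h1, ← Finset.add_sum_erase _ _ (mem_univ (∅ : Finset (Fin r)))]
  simp only [Finset.prod_empty, mul_one, one_mul]
  rw [mul_add, add_sub_cancel_left, abs_mul, abs_of_nonneg (by positivity : (0 : ℝ) ≤ (1 / 2) ^ r)]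
  apply mul_le_mul_of_nonneg_left _ (by positivity)
  refine (abs_sum_le_sum_abs _ _).trans (sum_le_sum fun S _ => ?_)
  rw [abs_mul, Finset.abs_prod]
  have : ∏ l ∈ S, |ε l| = 1 := by
    apply Finset.prod_eq_one
    intro l _
    rcases hε l with h3 | h3 <;> rw [h3] <;> norm_num
  rw [this, one_mul]

lemma sum_Ioc_eq (f : ℕ → ℝ) (u v : ℕ) (huv : u ≤ v) :
    ∑ n ∈ Ioc u v, f n = ∑ n ∈ Icc 1 v, f n - ∑ n ∈ Icc 1 u, f n := by
  have e1 : Icc 1 v = Ioc 0 v := by ext x; simp only [mem_Icc, mem_Ioc]; omega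
  have e2 : Icc 1 u = Ioc 0 u := by ext x; simp only [mem_Icc, mem_Ioc]; omega
  rw [e1, e2, ← sum_Ioc_consecutive f (Nat.zero_le u) huv]
  ring

lemma ev_pat (E : ℕ) : ∃ N₀ : ℕ, ∀ N : ℕ, N₀ ≤ N → 100 ≤ Real.log N ∧ 1 * Real.log N ^ E ≤ N := by
  obtain ⟨N₀, h⟩ := eventually_atTop.1 ((ev_log_ge 100).and (ev_log_pow E 1))
  exact ⟨N₀, fun N hN => h N hN⟩

/-- all the correlations of a tuple -/
noncomputable def Tot {m r : ℕ} (G : Fin m → ℕ → ℝ) (K N h : ℕ) (Y : Fin r → ℕ) : ℝ :=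
  ∑ k ∈ Icc 1 K, ∑ c ∈ range (K + 1), ∑ a : Fin m, ∑ S ∈ (univ : Finset (Finset (Fin r))).erase ∅,
    ∑ j ∈ range (N / h + 1), |∑ n ∈ Icc 1 (j * h), G a n * ∏ l ∈ S, lio (n + c + k * Y l)|

lemma tot_mean (A T Bq E : ℕ) : ∃ V C N₀ : ℕ, ∀ N : ℕ, N₀ ≤ N → ∀ (q : ℕ) [NeZero q],
    (N : ℝ) ^ (1 / 3 : ℝ) * Real.log N ^ C ≤ q → q ≤ Bq * N →
    ∀ {ι : Type} [DecidableEq ι] (s : Finset ι) (y : ι → ZMod q), s.Nonempty → Flat q (1 / Real.log N ^ V) s y →
    ∀ (r m : ℕ), (2 : ℝ) ^ r ≤ Real.log N ^ A → (m : ℝ) ≤ Real.log N ^ A →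
    ∀ G : Fin m → ℕ → ℝ, (∀ a n, |G a n| ≤ 1) → ∀ K h : ℕ, 1 ≤ h → (K : ℝ) ≤ Real.log N ^ T →
    ((N / h : ℕ) : ℝ) ≤ Real.log N ^ E →
    ∑ i ∈ Fintype.piFinset (fun _ : Fin r => s), Tot G K N h (fun l => (y (i l)).val) ≤
      (s.card : ℝ) ^ r / Real.log N ^ A * (N / Real.log N ^ E) := by
  obtain ⟨V, C, N₀, h1⟩ := cor_mean T Bq (2 * T + 3 * A + 2 * E + 2)
  obtain ⟨N₁, h2⟩ := ev_pat 0
  refine ⟨V, C, N₀ + N₁, fun N hN q _ hq1 hq2 ι _ s y hs hf r m hr hm G hG K h hh hK hE => ?_⟩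
  have hL := (h2 N (by omega)).1
  obtain ⟨L, hLd⟩ : ∃ L, L = Real.log (N : ℝ) := ⟨_, rfl⟩
  rw [← hLd] at hL hr hm hK hE ⊢
  have hL0 : 0 < L := by linarith
  have hL1 : 1 ≤ L := by linarith
  obtain ⟨R, hR⟩ : ∃ R, R = (s.card : ℝ) ^ r * (N / L ^ (2 * T + 3 * A + 2 * E + 2)) := ⟨_, rfl⟩
  have hR0 : 0 ≤ R := by rw [hR]; positivity
  have hone : ∀ k ∈ Icc 1 K, ∀ c ∈ range (K + 1), ∀ a : Fin m, ∀ S ∈ (univ : Finset (Finset (Fin r))).erase ∅,
      ∀ j ∈ range (N / h + 1), ∑ i ∈ Fintype.piFinset (fun _ : Fin r => s),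
        |∑ n ∈ Icc 1 (j * h), G a n * ∏ l ∈ S, lio (n + c + k * (y (i l)).val)| ≤ R := by
    intro k hk c hc a S hS j hj
    rw [mem_Icc] at hk
    rw [mem_range] at hc hj
    have hjN : j * h ≤ N := by
      calc j * h ≤ (N / h) * h := Nat.mul_le_mul_right _ (by omega)
        _ ≤ N := Nat.div_mul_le_self N h
    have hkK : (k : ℝ) ≤ K := by exact_mod_cast hk.2
    have hcK : (c : ℝ) ≤ K := by exact_mod_cast (by omega : c ≤ K)
    have := h1 N (by omega) q hq1 hq2 s y hs hf r (G a) (hG a) (j * h) hjN k c hk.1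
      (by rw [← hLd]; exact hkK.trans hK) (by rw [← hLd]; exact hcK.trans hK) S
      (Finset.nonempty_iff_ne_empty.2 (Finset.ne_of_mem_erase hS))
    rw [← hLd, ← hR] at this
    exact this
  have hsum : ∑ i ∈ Fintype.piFinset (fun _ : Fin r => s), Tot G K N h (fun l => (y (i l)).val) ≤
      ∑ k ∈ Icc 1 K, ∑ c ∈ range (K + 1), ∑ a : Fin m, ∑ S ∈ (univ : Finset (Finset (Fin r))).erase ∅,
        ∑ j ∈ range (N / h + 1), R := by
    unfold Tot
    rw [sum_comm]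
    refine sum_le_sum fun k hk => ?_
    rw [sum_comm]
    refine sum_le_sum fun c hc => ?_
    rw [sum_comm]
    refine sum_le_sum fun a _ => ?_
    rw [sum_comm]
    refine sum_le_sum fun S hS => ?_
    rw [sum_comm]
    exact sum_le_sum fun j hj => hone k hk c hc a S hS j hj
  refine hsum.trans ?_
  simp only [sum_const, nsmul_eq_mul, Nat.card_Icc, card_range, card_univ, Fintype.card_fin, Nat.add_sub_cancel]
  have hcS : (((univ : Finset (Finset (Fin r))).erase ∅).card : ℝ) ≤ L ^ A := by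
    refine le_trans ?_ hr
    have h3 : ((univ : Finset (Finset (Fin r))).erase ∅).card ≤ 2 ^ r := by
      refine (Finset.card_erase_le).trans ?_
      rw [card_univ, Fintype.card_finset, Fintype.card_fin]
    exact_mod_cast h3
  have hLT : 1 ≤ L ^ T := one_le_pow₀ hL1
  have hLE : 1 ≤ L ^ E := one_le_pow₀ hL1
  have hK1 : ((K + 1 : ℕ) : ℝ) ≤ L ^ (T + 1) := by
    push_cast
    rw [pow_succ]
    nlinarith
  have hE1 : ((N / h + 1 : ℕ) : ℝ) ≤ L ^ (E + 1) := by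
    push_cast
    rw [pow_succ]
    nlinarith
  calc (K : ℝ) * (((K + 1 : ℕ) : ℝ) * ((m : ℝ) * ((((univ : Finset (Finset (Fin r))).erase ∅).card : ℝ) *
        (((N / h + 1 : ℕ) : ℝ) * R))))
      ≤ L ^ T * (L ^ (T + 1) * (L ^ A * (L ^ A * (L ^ (E + 1) * R)))) := by gcongr
    _ = (s.card : ℝ) ^ r / L ^ A * (N / L ^ E) := by
      rw [hR]
      have : L ^ (2 * T + 3 * A + 2 * E + 2) = L ^ T * L ^ (T + 1) * L ^ A * L ^ A * L ^ (E + 1) * (L ^ A * L ^ E) := by
        rw [← pow_add, ← pow_add, ← pow_add, ← pow_add, ← pow_add, ← pow_add]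
        congr 1
        omega
      rw [this]
      field_simp

/-- the sign patterns of almost all tuples -/
theorem patterns (A T Bq : ℕ) : ∃ V C N₀ : ℕ, ∀ N : ℕ, N₀ ≤ N → ∀ (q : ℕ) [NeZero q],
    (N : ℝ) ^ (1 / 3 : ℝ) * Real.log N ^ C ≤ q → q ≤ Bq * N →
    ∀ {ι : Type} [DecidableEq ι] (s : Finset ι) (y : ι → ZMod q), s.Nonempty → Flat q (1 / Real.log N ^ V) s y →
    ∀ (r m : ℕ), (2 : ℝ) ^ r ≤ Real.log N ^ A → (m : ℝ) ≤ Real.log N ^ A →
    ∀ G : Fin m → ℕ → ℝ, (∀ a n, |G a n| ≤ 1) →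
    ∃ Bad ⊆ Fintype.piFinset (fun _ : Fin r => s), (Bad.card : ℝ) ≤ (s.card : ℝ) ^ r / Real.log N ^ A ∧
      ∀ i ∈ Fintype.piFinset (fun _ : Fin r => s), i ∉ Bad → ∀ k c : ℕ, 1 ≤ k → (k : ℝ) ≤ Real.log N ^ T →
      (c : ℝ) ≤ Real.log N ^ T → ∀ u v : ℕ, v ≤ N → (u : ℝ) + N / Real.log N ^ T ≤ v →
      ∀ ε : Fin r → ℝ, (∀ l, ε l = 1 ∨ ε l = -1) → ∀ a : Fin m,
      |∑ n ∈ Ioc u v, (if ∀ l, lio (n + c + k * (y (i l)).val) = ε l then G a n else 0) -
          (1 / 2) ^ r * ∑ n ∈ Ioc u v, G a n| ≤ ((v : ℝ) - u) / Real.log N ^ A := by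
  classical
  obtain ⟨V, C, N₀, h1⟩ := tot_mean A T Bq (T + A + 1)
  obtain ⟨N₁, h2⟩ := ev_pat (T + A + 1)
  refine ⟨V, C, N₀ + N₁ + 3, fun N hN q _ hq1 hq2 ι _ s y hs hf r m hr hm G hG => ?_⟩
  obtain ⟨hL, hLN⟩ := h2 N (by omega)
  have hmean := h1 N (by omega) q hq1 hq2 s y hs hf r m hr hm G hG
  obtain ⟨L, hLd⟩ : ∃ L, L = Real.log (N : ℝ) := ⟨_, rfl⟩
  rw [← hLd] at hL hLN hr hm hmean ⊢
  obtain ⟨E, hEd⟩ : ∃ E, E = T + A + 1 := ⟨_, rfl⟩
  rw [← hEd] at hLN hmean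
  rw [one_mul] at hLN
  have hL0 : 0 < L := by linarith
  have hL1 : 1 ≤ L := by linarith
  have hN0 : (0 : ℝ) < N := by exact_mod_cast (by omega : 0 < N)
  have hLE0 : 0 < L ^ E := by positivity
  obtain ⟨K, hK⟩ : ∃ K, K = ⌊L ^ T⌋₊ := ⟨_, rfl⟩
  obtain ⟨h, hh⟩ : ∃ h, h = ⌈(N : ℝ) / L ^ E⌉₊ := ⟨_, rfl⟩
  have hKu : (K : ℝ) ≤ L ^ T := by rw [hK]; exact Nat.floor_le (by positivity)
  have hhl : (N : ℝ) / L ^ E ≤ h := by rw [hh]; exact Nat.le_ceil _
  have hq1' : 1 ≤ (N : ℝ) / L ^ E := by rw [le_div_iff₀ hLE0, one_mul]; exact hLN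
  have hhu : (h : ℝ) ≤ 2 * (N / L ^ E) := by
    have := (Nat.ceil_lt_add_one (show (0 : ℝ) ≤ N / L ^ E by positivity)).le
    rw [← hh] at this
    linarith
  have hh1 : 1 ≤ h := by
    have : (1 : ℝ) ≤ h := hq1'.trans hhl
    exact_mod_cast this
  have hh0 : (0 : ℝ) < h := by exact_mod_cast hh1
  have hNh : ((N / h : ℕ) : ℝ) ≤ L ^ E := by
    refine (Nat.cast_div_le).trans ?_
    rw [div_le_iff₀ hh0]
    rw [div_le_iff₀ hLE0] at hhl
    linarith
  have hsum := hmean K h hh1 hKu hNh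
  obtain ⟨θ, hθ⟩ : ∃ θ : ℝ, θ = N / L ^ E := ⟨_, rfl⟩
  rw [← hθ] at hsum hhu
  have hθ0 : 0 < θ := by rw [hθ]; positivity
  have hTot0 : ∀ i : Fin r → ι, 0 ≤ Tot G K N h (fun l => (y (i l)).val) := by
    intro i
    unfold Tot
    exact sum_nonneg fun _ _ => sum_nonneg fun _ _ => sum_nonneg fun _ _ => sum_nonneg fun _ _ =>
      sum_nonneg fun _ _ => abs_nonneg _
  refine ⟨(Fintype.piFinset (fun _ : Fin r => s)).filter (fun i => θ < Tot G K N h (fun l => (y (i l)).val)),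
    filter_subset _ _, ?_, ?_⟩
  · -- few bad tuples
    have h3 : (((Fintype.piFinset (fun _ : Fin r => s)).filter
        (fun i => θ < Tot G K N h (fun l => (y (i l)).val))).card : ℝ) * θ ≤ (s.card : ℝ) ^ r / L ^ A * θ := by
      refine le_trans ?_ hsum
      calc (((Fintype.piFinset (fun _ : Fin r => s)).filter
            (fun i => θ < Tot G K N h (fun l => (y (i l)).val))).card : ℝ) * θ
          = ∑ i ∈ (Fintype.piFinset (fun _ : Fin r => s)).filter
            (fun i => θ < Tot G K N h (fun l => (y (i l)).val)), θ := by rw [sum_const, nsmul_eq_mul]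
        _ ≤ ∑ i ∈ (Fintype.piFinset (fun _ : Fin r => s)).filter
            (fun i => θ < Tot G K N h (fun l => (y (i l)).val)), Tot G K N h (fun l => (y (i l)).val) :=
          sum_le_sum fun i hi => (mem_filter.1 hi).2.le
        _ ≤ ∑ i ∈ Fintype.piFinset (fun _ : Fin r => s), Tot G K N h (fun l => (y (i l)).val) :=
          sum_le_sum_of_subset_of_nonneg (filter_subset _ _) fun i _ _ => hTot0 i
    exact le_of_mul_le_mul_right h3 hθ0
  · intro i hi hbad k c hk1 hk hc u v hv huv ε hε a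
    have hgood : Tot G K N h (fun l => (y (i l)).val) ≤ θ := by
      by_contra hcon
      exact hbad (mem_filter.2 ⟨hi, not_le.1 hcon⟩)
    have hkK : k ∈ Icc 1 K := mem_Icc.2 ⟨hk1, by rw [hK]; exact Nat.le_floor hk⟩
    have hcK : c ∈ range (K + 1) := mem_range.2 (by
      have : c ≤ K := by rw [hK]; exact Nat.le_floor hc
      omega)
    have hX : ∀ n, 1 ≤ n → ∀ l, (fun (n : ℕ) (l : Fin r) => lio (n + c + k * (y (i l)).val)) n l = 1 ∨
        (fun (n : ℕ) (l : Fin r) => lio (n + c + k * (y (i l)).val)) n l = -1 :=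
      fun n hn l => lio_sign _ (by omega)
    have hpre : ∀ w, w ≤ N → |∑ n ∈ Icc 1 w, (if ∀ l, lio (n + c + k * (y (i l)).val) = ε l then G a n else 0) -
        (1 / 2) ^ r * ∑ n ∈ Icc 1 w, G a n| ≤ θ + h := by
      intro w hw
      refine (pattern_defect r (G a) (fun n l => lio (n + c + k * (y (i l)).val)) hX ε hε w).trans ?_
      have h4 : ∀ S ∈ (univ : Finset (Finset (Fin r))).erase ∅,
          |∑ n ∈ Icc 1 w, G a n * ∏ l ∈ S, lio (n + c + k * (y (i l)).val)| ≤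
          ∑ j ∈ range (N / h + 1), |∑ n ∈ Icc 1 (j * h), G a n * ∏ l ∈ S, lio (n + c + k * (y (i l)).val)| + h := by
        intro S _
        refine prefix_grid (fun n => G a n * ∏ l ∈ S, lio (n + c + k * (y (i l)).val)) (fun n => ?_) N h hh1 w hw
        rw [abs_mul, Finset.abs_prod]
        have h3 : ∏ l ∈ S, |lio (n + c + k * (y (i l)).val)| ≤ 1 :=
          Finset.prod_le_one (fun _ _ => abs_nonneg _) (fun _ _ => abs_lio_le _)
        have h4 : 0 ≤ ∏ l ∈ S, |lio (n + c + k * (y (i l)).val)| := Finset.prod_nonneg fun _ _ => abs_nonneg _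
        calc |G a n| * ∏ l ∈ S, |lio (n + c + k * (y (i l)).val)| ≤ 1 * 1 := mul_le_mul (hG a n) h3 h4 zero_le_one
          _ = 1 := one_mul 1
      have h5 : ∑ S ∈ (univ : Finset (Finset (Fin r))).erase ∅,
          ∑ j ∈ range (N / h + 1), |∑ n ∈ Icc 1 (j * h), G a n * ∏ l ∈ S, lio (n + c + k * (y (i l)).val)| ≤
          Tot G K N h (fun l => (y (i l)).val) := by
        unfold Tot
        refine le_trans ?_ (single_le_sum (f := fun k => ∑ c ∈ range (K + 1), ∑ a : Fin m,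
          ∑ S ∈ (univ : Finset (Finset (Fin r))).erase ∅, ∑ j ∈ range (N / h + 1),
            |∑ n ∈ Icc 1 (j * h), G a n * ∏ l ∈ S, lio (n + c + k * (y (i l)).val)|)
          (fun _ _ => sum_nonneg fun _ _ => sum_nonneg fun _ _ => sum_nonneg fun _ _ =>
            sum_nonneg fun _ _ => abs_nonneg _) hkK)
        refine le_trans ?_ (single_le_sum (f := fun c => ∑ a : Fin m,
          ∑ S ∈ (univ : Finset (Finset (Fin r))).erase ∅, ∑ j ∈ range (N / h + 1),
            |∑ n ∈ Icc 1 (j * h), G a n * ∏ l ∈ S, lio (n + c + k * (y (i l)).val)|)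
          (fun _ _ => sum_nonneg fun _ _ => sum_nonneg fun _ _ => sum_nonneg fun _ _ => abs_nonneg _) hcK)
        exact single_le_sum (f := fun a => ∑ S ∈ (univ : Finset (Finset (Fin r))).erase ∅, ∑ j ∈ range (N / h + 1),
            |∑ n ∈ Icc 1 (j * h), G a n * ∏ l ∈ S, lio (n + c + k * (y (i l)).val)|)
          (fun _ _ => sum_nonneg fun _ _ => sum_nonneg fun _ _ => abs_nonneg _) (mem_univ a)
      have hcard : (((univ : Finset (Finset (Fin r))).erase ∅).card : ℝ) ≤ 2 ^ r := by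
        have h3 : ((univ : Finset (Finset (Fin r))).erase ∅).card ≤ 2 ^ r := by
          refine (Finset.card_erase_le).trans ?_
          rw [card_univ, Fintype.card_finset, Fintype.card_fin]
        exact_mod_cast h3
      have hr0 : (0 : ℝ) ≤ (1 / 2) ^ r := by positivity
      have hr1 : ((1 : ℝ) / 2) ^ r ≤ 1 := pow_le_one₀ (by norm_num) (by norm_num)
      have hr2 : ((1 : ℝ) / 2) ^ r * 2 ^ r = 1 := by rw [← mul_pow]; norm_num
      calc (1 / 2 : ℝ) ^ r * ∑ S ∈ (univ : Finset (Finset (Fin r))).erase ∅,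
            |∑ n ∈ Icc 1 w, G a n * ∏ l ∈ S, lio (n + c + k * (y (i l)).val)|
          ≤ (1 / 2 : ℝ) ^ r * ∑ S ∈ (univ : Finset (Finset (Fin r))).erase ∅,
            (∑ j ∈ range (N / h + 1), |∑ n ∈ Icc 1 (j * h), G a n * ∏ l ∈ S, lio (n + c + k * (y (i l)).val)| + h) :=
            mul_le_mul_of_nonneg_left (sum_le_sum h4) hr0
        _ = (1 / 2 : ℝ) ^ r * (∑ S ∈ (univ : Finset (Finset (Fin r))).erase ∅,
            ∑ j ∈ range (N / h + 1), |∑ n ∈ Icc 1 (j * h), G a n * ∏ l ∈ S, lio (n + c + k * (y (i l)).val)|) +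
            (1 / 2 : ℝ) ^ r * ((((univ : Finset (Finset (Fin r))).erase ∅).card : ℝ) * h) := by
            rw [sum_add_distrib, sum_const, nsmul_eq_mul, mul_add]
        _ ≤ 1 * θ + (1 / 2 : ℝ) ^ r * (2 ^ r * h) := by
            apply add_le_add
            · exact mul_le_mul hr1 (h5.trans hgood)
                (sum_nonneg fun _ _ => sum_nonneg fun _ _ => abs_nonneg _) zero_le_one
            · exact mul_le_mul_of_nonneg_left (mul_le_mul_of_nonneg_right hcard hh0.le) hr0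
        _ = θ + h := by rw [← mul_assoc, hr2]; ring
    have huv' : u ≤ v := by
      have h6 : (0 : ℝ) ≤ N / L ^ T := by positivity
      have : (u : ℝ) ≤ v := by linarith
      exact_mod_cast this
    rw [sum_Ioc_eq _ u v huv', sum_Ioc_eq _ u v huv']
    have h7 := hpre v hv
    have h8 := hpre u (huv'.trans hv)
    rw [abs_le] at h7 h8 ⊢
    have h9 : 6 * θ ≤ ((v : ℝ) - u) / L ^ A := by
      have h10 : (N : ℝ) / L ^ T ≤ (v : ℝ) - u := by linarith
      have h11 : 6 * θ ≤ N / L ^ T / L ^ A := by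
        rw [hθ, hEd, pow_succ, pow_add, div_div]
        have h12 : 6 * ((N : ℝ) / (L ^ T * L ^ A * L)) = N / (L ^ T * L ^ A) * (6 / L) := by
          field_simp
        rw [h12]
        have h13 : 6 / L ≤ 1 := by rw [div_le_one hL0]; linarith
        exact mul_le_of_le_one_right (by positivity) h13
      exact h11.trans (div_le_div_of_nonneg_right h10 (by positivity))
    rw [mul_sub]
    constructor <;> linarith [h7.1, h7.2, h8.1, h8.2]

lemma lio_eq (n : ℕ) (hn : 1 ≤ n) : lio n = (((-1 : ℤ) ^ ArithmeticFunction.cardFactors n : ℤ) : ℝ) := by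
  unfold lio
  rw [if_neg (by omega), ArithmeticFunction.cardFactors_apply]
  push_cast
  rfl

/-- `patterns` with integer signs -/
theorem patterns_int (A T Bq : ℕ) : ∃ V C N₀ : ℕ, ∀ N : ℕ, N₀ ≤ N → ∀ (q : ℕ) [NeZero q],
    (N : ℝ) ^ (1 / 3 : ℝ) * Real.log N ^ C ≤ q → q ≤ Bq * N →
    ∀ {ι : Type} [DecidableEq ι] (s : Finset ι) (y : ι → ZMod q), s.Nonempty → Flat q (1 / Real.log N ^ V) s y →
    ∀ (r m : ℕ), (2 : ℝ) ^ r ≤ Real.log N ^ A → (m : ℝ) ≤ Real.log N ^ A →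
    ∀ G : Fin m → ℕ → ℝ, (∀ a n, |G a n| ≤ 1) →
    ∃ Bad ⊆ Fintype.piFinset (fun _ : Fin r => s), (Bad.card : ℝ) ≤ (s.card : ℝ) ^ r / Real.log N ^ A ∧
      ∀ i ∈ Fintype.piFinset (fun _ : Fin r => s), i ∉ Bad → ∀ k c : ℕ, 1 ≤ k → (k : ℝ) ≤ Real.log N ^ T →
      (c : ℝ) ≤ Real.log N ^ T → ∀ u v : ℕ, v ≤ N → (u : ℝ) + N / Real.log N ^ T ≤ v →
      ∀ ε : Fin r → ℤ, (∀ l, ε l = 1 ∨ ε l = -1) → ∀ a : Fin m,
      |∑ n ∈ (Ioc u v).filter (fun n => ∀ l, (-1 : ℤ) ^ ArithmeticFunction.cardFactors (n + c + k * (y (i l)).val) = ε l),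
          G a n - (1 / 2) ^ r * ∑ n ∈ Ioc u v, G a n| ≤ ((v : ℝ) - u) / Real.log N ^ A := by
  obtain ⟨V, C, N₀, h⟩ := patterns A T Bq
  refine ⟨V, C, N₀, fun N hN q _ hq1 hq2 ι _ s y hs hf r m hr hm G hG => ?_⟩
  obtain ⟨Bad, hB1, hB2, hB3⟩ := h N hN q hq1 hq2 s y hs hf r m hr hm G hG
  refine ⟨Bad, hB1, hB2, fun i hi hbad k c hk1 hk hc u v hv huv ε hε a => ?_⟩
  have h1 := hB3 i hi hbad k c hk1 hk hc u v hv huv (fun l => ((ε l : ℤ) : ℝ)) (fun l => by
    rcases hε l with h2 | h2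
    · left; rw [h2]; norm_num
    · right; rw [h2]; norm_num) a
  have h2 : ∑ n ∈ (Ioc u v).filter (fun n => ∀ l, (-1 : ℤ) ^ ArithmeticFunction.cardFactors (n + c + k * (y (i l)).val) = ε l),
      G a n = ∑ n ∈ Ioc u v, (if ∀ l, lio (n + c + k * (y (i l)).val) = ((ε l : ℤ) : ℝ) then G a n else 0) := by
    rw [sum_filter]
    apply sum_congr rfl
    intro n hn
    rw [mem_Ioc] at hn
    have h3 : (∀ l, (-1 : ℤ) ^ ArithmeticFunction.cardFactors (n + c + k * (y (i l)).val) = ε l) ↔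
        ∀ l, lio (n + c + k * (y (i l)).val) = ((ε l : ℤ) : ℝ) := by
      constructor
      · intro h4 l
        rw [lio_eq _ (by omega), h4 l]
      · intro h4 l
        have := h4 l
        rw [lio_eq _ (by omega)] at this
        exact_mod_cast this
    simp only [h3]
  rw [h2]
  exact h1

end Pool.Agent.Run7.h458.MK
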